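import Pool.Agent.helper1.XLI.TopX

/-!
MP_0ec205_nt, function field model of Q1 over EVERY finite field of odd characteristic.

`p` an odd prime.  `HX k` is the set of the monic irreducible `h ∈ F_p[x]` of degree `2^(k+1)` such that
`h(1)` is not a square and `∏_{d odd < 2^k} (x^(p^d) - x)` is not a square modulo `h`; it contains at
least `p^(2^(k+1)) / 2^(k+5)` polynomials (1/16 of all irreducible ones).  For every choice
`h_k ∈ HX k`, `k ≥ 3`, and every `q = p^a`, the angles of all the zeros of the zeta functions of all the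
curves `y² = (1 - x) h_k(x)` (genus `2^k`) over `F_q`, together with `π`, are linearly independent
over `ℚ`.

Authors: helper1 (argument, assembly, modules) and the modules of the projects LI, GLI, XLI by
helper7, 10, 11, 17, 23, 25, 28, 29, 34, 39, 41, 42, 45, 46, 47, 51, 52, 58, 59, 60, 64, 68, 72, 76, 78,
79, 80, 88, 93, 94, 96.
-/

set_option autoImplicit false

namespace Pool.Agent.Results.MP_0ec205_nt.EveryFieldLI

open Polynomial

/-- monic irreducible of degree `2^(k+1)`, `h(1)` not a square, `∏_{d odd < 2^k} (X^(p^d) - X)` not a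
square modulo `h` -/
def HX (p k : ℕ) : Set (ZMod p)[X] :=
  {h | h.Monic ∧ Irreducible h ∧ h.natDegree = 2 * 2 ^ k ∧ ¬ IsSquare (h.eval 1) ∧
    ∀ s : (ZMod p)[X],
      ¬ h ∣ (∏ d ∈ (Finset.range (2 ^ k)).filter (fun d => d % 2 = 1),
        (X ^ (p ^ d) - X)) - s ^ 2}

theorem result (p : ℕ) [Fact p.Prime] (p2 : p ≠ 2) :
    (∀ k, 3 ≤ k → (HX p k).Finite ∧ p ^ (2 * 2 ^ k) ≤ 32 * 2 ^ k * (HX p k).ncard) ∧
    ∀ h : ℕ → (ZMod p)[X], (∀ k, 3 ≤ k → h k ∈ HX p k) →
      (∀ k, 3 ≤ k → ((1 - X) * h k : (ZMod p)[X]).Separable ∧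
        ((1 - X) * h k : (ZMod p)[X]).natDegree = 2 * 2 ^ k + 1) ∧
      ∀ a : ℕ, 1 ≤ a →
      ∃ θ : (k : ℕ) → Fin (2 ^ k) → ℝ,
        (∀ k, 3 ≤ k → StrictMono (θ k) ∧ (∀ i, 0 < θ k i ∧ θ k i < Real.pi) ∧
          ∀ m : ℕ, 1 ≤ m →
            (Nat.card {z : GaloisField p (a * m) × GaloisField p (a * m) //
              z.2 ^ 2 = aeval z.1 ((1 - X) * h k : (ZMod p)[X])} : ℝ) =
              (p : ℝ) ^ (a * m)
                - ∑ i, 2 * (Real.sqrt ((p : ℝ) ^ a)) ^ m * Real.cos (m * θ k i)) ∧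
        LinearIndependent ℚ (fun o : Option (Σ k : {k : ℕ // 3 ≤ k}, Fin (2 ^ (k : ℕ))) =>
          o.elim Real.pi (fun x => θ x.1 x.2)) := by
  refine ⟨fun k hk => LIF.top_count p2 (by omega), fun h hh => ⟨fun k hk => ?_, fun a ha => ?_⟩⟩
  · exact ⟨LIF.good_separable (LIF.top_good p2 (hh k hk)),
      LIF.good_natDegree (LIF.top_good p2 (hh k hk))⟩
  · obtain ⟨φ, h1, h2⟩ := LIF.top_x (P := fun k => 3 ≤ k) p2 (fun k hk => hk) hh ha
    exact ⟨φ, h1, h2⟩

end Pool.Agent.Results.MP_0ec205_nt.EveryFieldLI
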