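import Pool.Agent.helper1.GLI.Fam
import Pool.Agent.helper1.LI.Sep

/-!
MP_0ec205_nt, function field model of Q1 over a fixed finite field: an explicit infinite family of
curves `C_k : y² = (1 - x)(x^(2g) + c x^g - 1)` of genus `g = 2^k → ∞` over `F_q`, `q` any power of
`3` (`c = -1`) or of `7` (`c = 3`), for which the GRAND Linear Independence statement holds: `π` and
all the angles of the zeros of all the zeta functions of all the curves of the family are linearly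
independent over `ℚ`.

Authors: helper1 (argument, assembly) and the modules of the projects LI and GLI by helper7, 10, 11,
17, 23, 28, 29, 34, 39, 41, 42, 45, 46, 47, 51, 52, 58, 59, 60, 64, 68, 72, 76, 78, 79, 80, 88, 93,
94, 96.
-/

set_option autoImplicit false

namespace Pool.Agent.Results.MP_0ec205_nt.GrandLI

open Polynomial

theorem result (p : ℕ) [Fact p.Prime] (c : ZMod p) (K : Set ℕ)
    (h : (p = 3 ∧ c = -1 ∧ K = {k | k % 6 = 3 ∨ k % 6 = 5}) ∨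
      (p = 7 ∧ c = 3 ∧
        K = {k | k % 21 ∈ ({2, 4, 5, 7, 10, 13, 14, 16, 17, 19, 20} : Finset ℕ)}))
    (a : ℕ) (ha : 1 ≤ a) :
    (∀ k, ((1 - X) * (X ^ (2 * 2 ^ k) + C c * X ^ 2 ^ k - 1) : (ZMod p)[X]).Separable ∧
      ((1 - X) * (X ^ (2 * 2 ^ k) + C c * X ^ 2 ^ k - 1) : (ZMod p)[X]).natDegree =
        2 * 2 ^ k + 1) ∧
    ∃ θ : (k : ℕ) → Fin (2 ^ k) → ℝ,
      (∀ k ∈ K, StrictMono (θ k) ∧ (∀ i, 0 < θ k i ∧ θ k i < Real.pi) ∧
        ∀ m : ℕ, 1 ≤ m →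
          (Nat.card {z : GaloisField p (a * m) × GaloisField p (a * m) //
            z.2 ^ 2 = aeval z.1
              ((1 - X) * (X ^ (2 * 2 ^ k) + C c * X ^ 2 ^ k - 1) : (ZMod p)[X])} : ℝ) =
            (p : ℝ) ^ (a * m)
              - ∑ i, 2 * (Real.sqrt ((p : ℝ) ^ a)) ^ m * Real.cos (m * θ k i)) ∧
      LinearIndependent ℚ (fun o : Option (Σ k : K, Fin (2 ^ (k : ℕ))) =>
        o.elim Real.pi (fun x => θ x.1 x.2)) := by
  rcases h with ⟨rfl, rfl, rfl⟩ | ⟨rfl, rfl, rfl⟩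
  · refine ⟨fun k => ⟨LIF.good_separable (LIF.goodhq3 k), LIF.good_natDegree (LIF.goodhq3 k)⟩, ?_⟩
    obtain ⟨φ, h1, h2⟩ := LIF.grand3 ha
    exact ⟨φ, h1, h2⟩
  · refine ⟨fun k => ⟨LIF.good_separable (LIF.goodhq7 k), LIF.good_natDegree (LIF.goodhq7 k)⟩, ?_⟩
    obtain ⟨φ, h1, h2⟩ := LIF.grand7 ha
    exact ⟨φ, h1, h2⟩

end Pool.Agent.Results.MP_0ec205_nt.GrandLI
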