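import Mathlib
import Pool.Agent.helper30.LR.Final

set_option autoImplicit false

/-!
# Linear relations between ordinates of zeta zeros hold for at most half of the tuples (RH)

`mult γ` is the multiplicity of `1/2 + iγ` as a zero of `ζ` (so `0` if it is not a zero) and `N T`
is the number of zeros `1/2 + iγ` with `0 < γ ≤ T`, counted with multiplicity. Under RH, for fixed
nonzero reals `a₁, …, a_k`, `k ≥ 2`, a relation `a₁γ₁ + … + a_kγ_k + α = γ` between ordinates holds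
for at most `(1/2 + ε) N(T)^k` of the `k`-tuples; consequently every set of ordinates of positive
proportion has a sumset of at least `4 - ε` times its size.
-/

namespace Pool.Agent.Results.MP_0ec205_nt.HalfOfTuples

open Complex

noncomputable section

/-- Multiplicity of `1/2 + iγ` as a zero of `ζ` (`0` if `ζ(1/2 + iγ) ≠ 0`). -/
def mult (γ : ℝ) : ℕ := analyticOrderNatAt riemannZeta (1 / 2 + γ * I)

/-- The ordinates in `(0, T]` of the zeros on the critical line. -/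
def ordinates (T : ℝ) : Set ℝ := {γ : ℝ | 0 < γ ∧ γ ≤ T ∧ riemannZeta (1 / 2 + γ * I) = 0}

/-- `N(T)`: number of zeros `1/2 + iγ`, `0 < γ ≤ T`, counted with multiplicity. -/
def N (T : ℝ) : ℝ := ∑ᶠ γ ∈ ordinates T, (mult γ : ℝ)

theorem result (hRH : RiemannHypothesis) :
    -- `N T` is a finite sum
    (∀ T : ℝ, (ordinates T).Finite) ∧
    -- (i) a linear relation holds for at most half of the tuples
    (∀ k : ℕ, 2 ≤ k → ∀ a : Fin k → ℝ, (∀ j, a j ≠ 0) → ∀ K ε : ℝ, 0 < ε →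
      ∃ T0 : ℝ, ∀ T : ℝ, T0 ≤ T → ∀ α : ℝ, |α| ≤ K * T → ∀ G : Fin k → Finset ℝ,
        (∀ j, ∀ γ ∈ G j, |γ| ≤ K * T) →
        ∑ g ∈ Fintype.piFinset G, (∏ j, (mult (g j) : ℝ)) * (mult (∑ j, a j * g j + α) : ℝ) ≤
          1 / 2 * ∏ j, ∑ γ ∈ G j, (mult γ : ℝ) + ε * N T ^ k) ∧
    -- (ii) sumsets of sets of ordinates
    (∀ a b : ℝ, a ≠ 0 → b ≠ 0 → ∀ K η ε : ℝ, 0 < η → 0 < ε →
      ∃ T0 : ℝ, ∀ T : ℝ, T0 ≤ T → ∀ A B : Finset ℝ,
        (∀ γ ∈ A, |γ| ≤ K * T) → (∀ γ ∈ B, |γ| ≤ K * T) →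
        η * N T ≤ ∑ γ ∈ A, (mult γ : ℝ) → η * N T ≤ ∑ γ ∈ B, (mult γ : ℝ) →
        2 * ∑ γ ∈ A, (mult γ : ℝ) + 2 * ∑ γ ∈ B, (mult γ : ℝ) - ε * N T ≤
          (((A ×ˢ B).image fun p => a * p.1 + b * p.2).card : ℝ)) :=
  Pool.Agent.helper30.LR.final hRH

end

end Pool.Agent.Results.MP_0ec205_nt.HalfOfTuples
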