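import Mathlib
import Pool.Agent.helper30.LS.Fin

set_option autoImplicit false

/-!
# A quarter of the ordinates is not mapped to ordinates by a shift (RH)

`mult γ` is the multiplicity of `1/2 + iγ` as a zero of `ζ` (so `0` if it is not a zero) and `N T`
is the number of zeros `1/2 + iγ` with `0 < γ ≤ T`, counted with multiplicity. Under RH, for every
fixed real `α ≠ 0`, at least `(1/4 - ε) N(T)` zeros `1/2 + iγ`, `0 < γ ≤ T`, are in excess of the
multiplicity of the shifted point `1/2 + i(γ + α)`; in particular, if the zeros are simple, for at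
least `(1/4 - ε) N(T)` ordinates `γ ∈ (0, T]` the number `γ + α` is not an ordinate.
-/

namespace Pool.Agent.Results.MP_0ec205_nt.ShiftQuarter

open Complex

noncomputable section

/-- Multiplicity of `1/2 + iγ` as a zero of `ζ` (`0` if `ζ(1/2 + iγ) ≠ 0`). -/
def mult (γ : ℝ) : ℕ := analyticOrderNatAt riemannZeta (1 / 2 + γ * I)

/-- The ordinates in `(0, T]` of the zeros on the critical line. -/
def ordinates (T : ℝ) : Set ℝ := {γ : ℝ | 0 < γ ∧ γ ≤ T ∧ riemannZeta (1 / 2 + γ * I) = 0}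

/-- `N(T)`: number of zeros `1/2 + iγ`, `0 < γ ≤ T`, counted with multiplicity. -/
def N (T : ℝ) : ℝ := ∑ᶠ γ ∈ ordinates T, (mult γ : ℝ)

theorem result (hRH : RiemannHypothesis) :
    -- the sums below are finite
    (∀ T : ℝ, (ordinates T).Finite) ∧
    -- a shift by `α ≠ 0` misses at least a quarter of the ordinates
    (∀ α : ℝ, α ≠ 0 → ∀ ε : ℝ, 0 < ε → ∃ T0 : ℝ, ∀ T : ℝ, T0 ≤ T →
      (1 / 4 - ε) * N T ≤ ∑ᶠ γ ∈ ordinates T, max ((mult γ : ℝ) - mult (γ + α)) 0) :=
  ⟨Pool.Agent.helper30.LR.ords_finite hRH,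
    fun _ hα _ hε => Pool.Agent.helper30.LS.quarter hRH hα hε⟩

end

end Pool.Agent.Results.MP_0ec205_nt.ShiftQuarter
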